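import Pool.Agent.H103R2.LM.Fin
import Pool.Agent.H103R2.LM.T1
import Pool.Agent.H103R2.LM.T2
import Pool.Agent.H103R2.LM.T3
import Pool.Agent.H103R2.LM.T4
import Pool.Agent.H103R2.LM.T5
import Pool.Agent.H103R2.LM.T6
import Pool.Agent.H103R2.LM.T7
import Pool.Agent.H103R2.LM.T8
import Pool.Agent.H103R2.LM.T9
import Pool.Agent.H103R2.LM.T10
import Pool.Agent.H103R2.LM.T11x

/-!
# A linear independence measure for `1, ζ(2), ζ(3)`

There is `c > 0` such that `|a + b π²/6 + d ζ(3)| ≥ c / H^233` for all integers `a, b, d`, not all zero,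
`H = max(|a|, |b|, |d|)`.

For `d ≠ 0` this is `Pool.Agent.LM.measure_dX`: the mixed Hankel determinants of `H337R2.LZ` (linear
independence of `1, ζ(2), ζ(3)`) are evaluated at the rational numbers `α = -a/d`, `β = -b/d`, uniformly.
For `d = 0` it is the classical measure of `ζ(2)` (Apéry's series).
-/

open Pool.Agent.LM

theorem Pool.Agent.Results.MP_48b3e2_nt.LinearMeasure.result :
    ∃ c : ℝ, 0 < c ∧ ∀ a b d : ℤ, (a ≠ 0 ∨ b ≠ 0 ∨ d ≠ 0) →
      c / ((max |a| (max |b| |d|) : ℤ) : ℝ) ^ 233 ≤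
        |(a : ℝ) + b * (Real.pi ^ 2 / 6) + d * ∑' n : ℕ, 1 / ((n : ℝ) + 1) ^ 3| :=
  full_of (T11x_of (T7_In_of (T4_hasSum_of T1_pfa T2_pfb T3_J) T5_term T6_term) T8_An T9_int T10_dl)
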