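import Mathlib
import Pool.Agent.H447R2.MZ.Alg

set_option autoImplicit false

namespace Pool.Agent.Results.MP_48b3e2_nt.ZetaThreeOrLinear

/-- The `ℚ`-span of the multiple zeta values of weight `n` (weight `0` gives `ℚ`, weight `1`
gives `0`). -/
noncomputable def Z (n : ℕ) : Submodule ℚ ℝ :=
  Submodule.span ℚ
    {x : ℝ | ∃ t : ℕ, ∃ k : Fin t → ℕ,
      (∀ i, 1 ≤ k i) ∧ (∀ h : 0 < t, 2 ≤ k ⟨0, h⟩) ∧ (∑ i, k i) = n ∧
      x = ∑' m : {m : Fin t → ℕ // StrictAnti m ∧ ∀ i, 1 ≤ m i},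
            ∏ i, (((m.1 i : ℕ) : ℝ) ^ (k i))⁻¹}

/-- Either `ζ(3)` is transcendental, or the dimension of the span of the multiple zeta values of
weight `n` is at least `⌊n/6⌋ + 1` (`n` even), `⌊(n-3)/6⌋ + 1` (`n` odd), for all `n ≥ 2`. -/
theorem result :
    Transcendental ℚ (∑' n : ℕ, (1 : ℝ) / ((n : ℝ) + 1) ^ 3) ∨
    ∀ n : ℕ, 2 ≤ n →
      (((n - 3 * (n % 2)) / 6 + 1 : ℕ) : Cardinal) ≤ Module.rank ℚ (Z n) := by
  by_cases h : Transcendental ℚ (∑' n : ℕ, (1 : ℝ) / ((n : ℝ) + 1) ^ 3)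
  · exact Or.inl h
  · right
    intro n hn
    have hz : IsAlgebraic ℚ Pool.Agent.H447R2.MZ.z3 := by
      rw [Transcendental, not_not] at h
      exact h
    have ht := Pool.Agent.H447R2.MZ.transcendental_div 3 (by norm_num) _
      Pool.Agent.H447R2.MZ.z3_pos.ne' hz
    exact Pool.Agent.H447R2.MZ.growth 3 _ Pool.Agent.H447R2.MZ.z3_mem ht n hn

end Pool.Agent.Results.MP_48b3e2_nt.ZetaThreeOrLinear
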