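import Mathlib
import Pool.Agent.H447R2.MZ.Alg

set_option autoImplicit false

namespace Pool.Agent.Results.MP_48b3e2_nt.ZetaThreeOrTrdeg

/-- The `ℚ`-span of the multiple zeta values of weight `n` (weight `0` gives `ℚ`, weight `1`
gives `0`). -/
noncomputable def Z (n : ℕ) : Submodule ℚ ℝ :=
  Submodule.span ℚ
    {x : ℝ | ∃ t : ℕ, ∃ k : Fin t → ℕ,
      (∀ i, 1 ≤ k i) ∧ (∀ h : 0 < t, 2 ≤ k ⟨0, h⟩) ∧ (∑ i, k i) = n ∧
      x = ∑' m : {m : Fin t → ℕ // StrictAnti m ∧ ∀ i, 1 ≤ m i},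
            ∏ i, (((m.1 i : ℕ) : ℝ) ^ (k i))⁻¹}

/-- Either `ζ(3)` is transcendental, or the dimensions of the spaces `Z n` grow at least like
`n ^ s` for every `s` such that there are `s` algebraically independent elements in the spaces
`Z w` (of any weights). -/
theorem result :
    Transcendental ℚ (∑' n : ℕ, (1 : ℝ) / ((n : ℝ) + 1) ^ 3) ∨
    ∀ (s : ℕ) (x : Fin s → ℝ), (∀ i, ∃ w, x i ∈ Z w) → AlgebraicIndependent ℚ x →
      ∃ D : ℕ, 1 ≤ D ∧ ∀ n : ℕ, 2 ≤ n →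
        ((((n - 2) / D + 1) ^ s : ℕ) : Cardinal) ≤ Module.rank ℚ (Z n) := by
  by_cases h : Transcendental ℚ (∑' n : ℕ, (1 : ℝ) / ((n : ℝ) + 1) ^ 3)
  · exact Or.inl h
  · right
    have hz : IsAlgebraic ℚ Pool.Agent.H447R2.MZ.z3 := by
      rw [Transcendental, not_not] at h
      exact h
    obtain ⟨p, hp⟩ := Pool.Agent.H447R2.MZ.not_direct_of_algebraic 3 (by norm_num) _
      Pool.Agent.H447R2.MZ.z3_mem Pool.Agent.H447R2.MZ.z3_pos.ne' hz
    intro s x hx hind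
    obtain ⟨D, hD, hg⟩ := Pool.Agent.H447R2.MZ.growth_of_not_direct p hp s x hx hind
    refine ⟨D, hD, fun n hn => ?_⟩
    have h1 := hg n hn
    have hf : Module.Finite ℚ (Z n) := Pool.Agent.H447R2.MZ.finite_Zs n
    rw [← Module.finrank_eq_rank]
    exact_mod_cast h1

end Pool.Agent.Results.MP_48b3e2_nt.ZetaThreeOrTrdeg
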